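import Mathlib
import Pool.Agent.Q213.StepsE

/-!
# Rigid uniformly `κ`-branching branchwise-real trees for all `κ ≥ 𝔠`
-/

namespace Pool.Agent.Results.MP_91fb13_lc.RigidTree

open Cardinal Set
open Pool.Agent.Q213.Steps Pool.Agent.Q213.IndepReals

universe u

/-- A branchwise-real tree : the elements below a given element form a chain, every branch
(maximal chain) is order-isomorphic to an interval of `ℝ`, and any two elements have a meet. -/
structure BranchwiseReal (X : Type u) [PartialOrder X] : Prop where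
  tree : ∀ x : X, IsChain (· ≤ ·) {y | y ≤ x}
  branch : ∀ C : Set X, IsMaxChain (· ≤ ·) C → ∃ I : Set ℝ, I.OrdConnected ∧ Nonempty (C ≃o I)
  meet : ∀ x y : X, ∃ z, IsGLB {x, y} z

/-- `y` and `z` lie in the same component above `x`. -/
def SameComponent {X : Type u} [PartialOrder X] (x y z : X) : Prop :=
  ∃ w, x < w ∧ w ≤ y ∧ w ≤ z

/-- The components above `x`. -/
def Components {X : Type u} [PartialOrder X] (x : X) : Set (Set X) :=
  {C | ∃ y, x < y ∧ C = {z | SameComponent x y z}}

/-- The degree of `x`. -/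
noncomputable def degree {X : Type u} [PartialOrder X] (x : X) : Cardinal.{u} := #(Components x)

theorem mk_step (K : Type u) : #(Step K) ≤ max Cardinal.continuum.{u} #K := by
  let f : Step K → (K × ℝ) ⊕ ((K × ℝ) ⊕ ((ℕ → Bool) × ℝ))
    | .new ξ t => Sum.inl (ξ, t)
    | .sk σ t => Sum.inr (Sum.inl (σ, t))
    | .gd x t => Sum.inr (Sum.inr (x, t))
  have hf : Function.Injective f := by
    intro a b h
    cases a <;> cases b <;> simp [f] at h ⊢ <;> exact h
  refine (Cardinal.mk_le_of_injective hf).trans ?_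
  set μ : Cardinal.{u} := max Cardinal.continuum.{u} #K with hμ
  have hc : Cardinal.continuum.{u} ≤ μ := le_max_left _ _
  have hK : #K ≤ μ := le_max_right _ _
  have hω : ℵ₀ ≤ μ := aleph0_le_continuum.trans hc
  have h1 : #(K × ℝ) ≤ μ := by
    have h : #(K × ℝ) = #K * Cardinal.continuum.{u} := by
      simp [Cardinal.mk_real]
    rw [h]
    exact (mul_le_mul' hK hc).trans (Cardinal.mul_eq_self hω).le
  have h2 : Cardinal.lift.{u, 0} #((ℕ → Bool) × ℝ) ≤ μ := by
    have : #((ℕ → Bool) × ℝ) = 𝔠 := by simp [Cardinal.mk_real]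
    rw [this, Cardinal.lift_continuum]
    exact hc
  have h3 : #((K × ℝ) ⊕ ((K × ℝ) ⊕ ((ℕ → Bool) × ℝ))) =
      #(K × ℝ) + (#(K × ℝ) + Cardinal.lift.{u, 0} #((ℕ → Bool) × ℝ)) := by
    simp
  rw [h3]
  refine (add_le_add h1 (add_le_add h1 h2)).trans ?_
  rw [Cardinal.add_eq_self hω, Cardinal.add_eq_self hω]

/-- For every cardinal `κ ≥ 𝔠` (in particular for every `κ > 𝔠⁺`) there is a rigid uniformly
`κ`-branching branchwise-real tree. The tree moreover has a strictly increasing map to `ℝ` which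
maps the set of elements below `x` onto an interval `[0, h x]`, for every `x`. -/
theorem result (κ : Cardinal.{u}) (hκ : Cardinal.continuum.{u} ≤ κ) :
    ∃ (X : Type u) (_ : PartialOrder X), Nonempty X ∧ BranchwiseReal X ∧
      (∀ x : X, degree x = κ) ∧ (∀ φ : X ≃o X, φ = OrderIso.refl X) ∧
      ∃ h : X → ℝ, StrictMono h ∧ ∀ x, h '' Set.Iic x = Set.Icc 0 (h x) := by
  classical
  have hω : ℵ₀ ≤ κ := aleph0_le_continuum.trans hκ
  let K0 : Type u := κ.ord.ToType
  have hK0 : #K0 = κ := by simp [K0]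
  let K : Type u := WithBot K0
  have hK : #K = κ := by
    have h1 : #K = #K0 + 1 := Cardinal.mk_option
    rw [h1, hK0, Cardinal.add_one_eq hω]
  have hL : #(List (Step K)) ≤ κ := by
    refine (Cardinal.mk_list_le_max _).trans (max_le hω ((mk_step K).trans ?_))
    rw [hK]
    exact max_le hκ le_rfl
  obtain ⟨f⟩ : Nonempty (List (Step K) ↪ K0) := by
    rw [← hK0] at hL
    exact hL
  let ρ : List (Step K) → K := fun y => ((f y : K0) : WithBot K0)
  have hρ : Function.Injective ρ := fun a b h => f.injective (WithBot.coe_injective h)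
  have hρ0 : ∀ y, ∃ j, j < ρ y := fun y => ⟨⊥, WithBot.bot_lt_coe _⟩
  obtain ⟨N, hN⟩ := exists_indep
  have hTle : #(T ρ N) ≤ κ := by
    refine le_trans (Cardinal.mk_le_of_injective (f := T.val) ?_) hL
    intro a b h
    exact T.ext h
  refine ⟨T ρ N, inferInstance, ⟨⟨[], trivial⟩⟩, ⟨?_, ?_, ?_⟩, ?_,
    fun φ => rigid hN hρ hρ0 φ, fun a => Pool.Agent.Q213.Steps.ht a.val, fun a b h => T.ht_lt h,
    ?_⟩
  · intro x a ha b hb _
    exact (resData ρ N).tree ha hb
  · exact (resData ρ N).branch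
  · exact (resData ρ N).meet
  · intro a
    refine le_antisymm ?_ ?_
    · refine le_trans ?_ hTle
      let g : T ρ N → Set (T ρ N) := fun y => {z | SameComponent a y z}
      have h1 : Components a ⊆ range g := by
        rintro C ⟨y, _, rfl⟩
        exact ⟨y, rfl⟩
      exact (Cardinal.mk_le_mk_of_subset h1).trans Cardinal.mk_range_le
    · refine le_trans hK.ge ?_
      have hlt : ∀ ξ : K, a < mkNew ξ a := fun ξ => lt_of_cons (mkNew ξ a).prop
      let g : K → Components a := fun ξ => ⟨{z | SameComponent a (mkNew ξ a) z}, mkNew ξ a, hlt ξ,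
        rfl⟩
      refine Cardinal.mk_le_of_injective (f := g) ?_
      intro ξ ξ' h
      have h1 : {z | SameComponent a (mkNew ξ a) z} = {z | SameComponent a (mkNew ξ' a) z} :=
        congrArg Subtype.val h
      have h2 : mkNew ξ' a ∈ {z | SameComponent a (mkNew ξ a) z} := by
        rw [h1]
        exact ⟨mkNew ξ' a, hlt ξ', le_rfl, le_rfl⟩
      obtain ⟨w, hw, hw1, hw2⟩ := h2
      rcases le_cons_cases (T.le_iff'.mp hw1) with h3 | ⟨_, _, h3⟩
      · exact absurd (T.le_iff'.mpr h3 : w ≤ a) (not_le_of_gt hw)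
      rcases le_cons_cases (T.le_iff'.mp hw2) with h4 | ⟨_, _, h4⟩
      · exact absurd (T.le_iff'.mpr h4 : w ≤ a) (not_le_of_gt hw)
      have h5 := (List.cons_eq_cons.mp (h3.symm.trans h4)).1
      simp only [Step.cut, Step.new.injEq] at h5
      exact h5.1
  · intro x
    ext r
    constructor
    · rintro ⟨y, hy, rfl⟩
      exact ⟨ht_nonneg y.prop.ok, (T.le_iff'.mp hy).1⟩
    · rintro ⟨h0, h1⟩
      exact ⟨(resData ρ N).res x r, (resData ρ N).res_le x h0 h1, (resData ρ N).h_res x r h0 h1⟩

end Pool.Agent.Results.MP_91fb13_lc.RigidTree
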